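import Pool.Agent.P8H8.EV.Stm
import Pool.Agent.P8H94.SV.Flux

/-! Package CHAIN of project EV: the chain rule for `f ∘ φ ∘ exp`. -/

set_option autoImplicit false

open MeasureTheory Set Filter Metric
open scoped Topology ContDiff ComplexConjugate

namespace Pool.Agent.P8H4.EV

open Pool.Agent.P8H8.SV Pool.Agent.P8H8.EV Pool.Agent.P8H94.SV

variable {φ : ℂ → ℂ} {r : ℝ}

/-- the domain is open -/
theorem isOpen_dom (h : Dom φ r) : IsOpen (φ '' ball 0 1) := by
  rw [isOpen_iff_mem_nhds]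
  rintro _ ⟨w, hw, rfl⟩
  have hw' : w ∈ ball (0 : ℂ) r := ball_subset_ball h.hr.le hw
  have h1 : AnalyticAt ℂ φ w := h.hol.analyticAt (isOpen_ball.mem_nhds hw')
  have h2 := h1.hasStrictDerivAt.map_nhds_eq (h.deriv_ne hw')
  rw [← h2]
  exact image_mem_map (isOpen_ball.mem_nhds hw)

theorem mem_dom {ζ : ℂ} (hζ : ζ.re < 0) : φ (Complex.exp ζ) ∈ φ '' ball 0 1 :=
  mem_image_of_mem _ (exp_mem hζ)

/-- real linear maps of the plane -/
theorem clm_eq (L : ℂ →L[ℝ] ℂ) (h : ℂ) :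
    L h = (L 1 - Complex.I * L Complex.I) / 2 * h + (L 1 + Complex.I * L Complex.I) / 2 * conj h := by
  have h1 : L h = h.re * L 1 + h.im * L Complex.I := by
    conv_lhs => rw [show h = h.re • (1 : ℂ) + h.im • Complex.I by
      rw [Complex.real_smul, Complex.real_smul, mul_one]; exact (Complex.re_add_im h).symm]
    rw [map_add, map_smul, map_smul, Complex.real_smul, Complex.real_smul]
  have h2 : h = h.re + h.im * Complex.I := (Complex.re_add_im h).symm
  have h3 : conj h = h.re - h.im * Complex.I := by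
    apply Complex.ext <;> simp
  rw [h1, h3]
  conv_rhs => rw [h2]
  simp only [Complex.add_re, Complex.add_im, Complex.ofReal_re, Complex.ofReal_im, Complex.mul_re,
    Complex.mul_im, Complex.I_re, Complex.I_im, mul_zero, mul_one, sub_zero, zero_add, add_zero]
  linear_combination ((h.im : ℂ) * L Complex.I) * Complex.I_mul_I

theorem chain_hasFDerivAt (h : Dom φ r) {f : ℂ → ℂ} {ζ : ℂ} (hζ : ζ.re < 0)
    (hf : DifferentiableAt ℝ f (φ (Complex.exp ζ))) :
    HasFDerivAt (fun x => f (φ (Complex.exp x)))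
      ((fderiv ℝ f (φ (Complex.exp ζ))).comp (dF φ ζ • ContinuousLinearMap.id ℝ ℂ)) ζ := by
  have h1 := hol_fderiv (F_an h hζ).differentiableAt
  rw [F_deriv h hζ] at h1
  exact hf.hasFDerivAt.comp ζ h1

/-- **Package CHAIN.** -/
theorem t_CHAIN : S_CHAIN := by
  intro φ r f h hf
  have hat : ∀ ζ : ℂ, ζ.re < 0 → ContDiffAt ℝ ∞ f (φ (Complex.exp ζ)) := fun ζ hζ =>
    hf.contDiffAt ((isOpen_dom h).mem_nhds (mem_dom hζ))
  refine ⟨fun ζ hζ => ?_, fun ζ hζ η => ?_⟩
  · have h1 : ContDiffAt ℝ ∞ (fun z => φ (Complex.exp z)) ζ :=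
      ((F_an h hζ).contDiffAt (n := ∞)).restrict_scalars ℝ
    exact ((hat ζ hζ).comp ζ h1).contDiffWithinAt
  · rw [(chain_hasFDerivAt h hζ ((hat ζ hζ).differentiableAt (by norm_num))).fderiv]
    change fderiv ℝ f (φ (Complex.exp ζ)) (dF φ ζ * η) = _
    rw [clm_eq]
    rfl

end Pool.Agent.P8H4.EV


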