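import Pool.Agent.P8H4.EV.Chain

/-! Package GREEN of project EV: Green's formula in the logarithmic coordinate. -/

set_option autoImplicit false

open MeasureTheory Set Filter Metric
open scoped Topology ContDiff ComplexConjugate

namespace Pool.Agent.P8H4.EV

open Pool.Agent.P8H8.SV Pool.Agent.P8H8.EV Pool.Agent.P8H94.SV
open Pool.Agent.TH298.Sch (dd)
open Pool.Agent.R227.SA (la)

variable {φ : ℂ → ℂ} {r lam : ℝ}

/-- derivative in the direction `k` -/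
noncomputable def DD (k : ℂ) (f : ℂ → ℂ) (z : ℂ) : ℂ := fderiv ℝ f z k

theorem Dx_eq (f : ℂ → ℂ) : Dx f = DD 1 f := rfl

theorem Dy_eq (f : ℂ → ℂ) : Dy f = DD Complex.I f := rfl

theorem dd_re {f : ℂ → ℂ} {z : ℂ} (hf : DifferentiableAt ℝ f z) (k : ℂ) :
    dd k (fun x => (f x).re) z = (DD k f z).re := by
  have h := (Complex.reCLM.hasFDerivAt (x := f z)).comp z hf.hasFDerivAt
  unfold dd DD
  have h2 : fderiv ℝ (fun x => (f x).re) z = _ := h.fderiv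
  rw [h2]
  rfl

theorem dd_im {f : ℂ → ℂ} {z : ℂ} (hf : DifferentiableAt ℝ f z) (k : ℂ) :
    dd k (fun x => (f x).im) z = (DD k f z).im := by
  have h := (Complex.imCLM.hasFDerivAt (x := f z)).comp z hf.hasFDerivAt
  unfold dd DD
  have h2 : fderiv ℝ (fun x => (f x).im) z = _ := h.fderiv
  rw [h2]
  rfl

theorem DD_diff {f : ℂ → ℂ} {z : ℂ} (hf : ContDiffAt ℝ 2 f z) (k : ℂ) :
    DifferentiableAt ℝ (DD k f) z := by
  have h1 : ContDiffAt ℝ 1 (fderiv ℝ f) z := hf.fderiv_right (by norm_num)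
  have h2 : ContDiffAt ℝ 1 (fun z => fderiv ℝ f z k) z := h1.clm_apply contDiffAt_const
  exact h2.differentiableAt (by norm_num)

theorem dd2_re {f : ℂ → ℂ} {z : ℂ} (hf : ContDiffAt ℝ 2 f z) (k : ℂ) :
    dd k (dd k (fun x => (f x).re)) z = (DD k (DD k f) z).re := by
  have h1 : ∀ᶠ y in 𝓝 z, dd k (fun x => (f x).re) y = (DD k f y).re := by
    filter_upwards [hf.eventually (by simp)] with y hy
    exact dd_re (hy.differentiableAt (by norm_num)) k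
  have h2 : dd k (dd k (fun x => (f x).re)) z = dd k (fun y => (DD k f y).re) z :=
    congrArg (fun L : ℂ →L[ℝ] ℝ => L k) (Filter.EventuallyEq.fderiv_eq h1)
  rw [h2, dd_re (DD_diff hf k)]

theorem dd2_im {f : ℂ → ℂ} {z : ℂ} (hf : ContDiffAt ℝ 2 f z) (k : ℂ) :
    dd k (dd k (fun x => (f x).im)) z = (DD k (DD k f) z).im := by
  have h1 : ∀ᶠ y in 𝓝 z, dd k (fun x => (f x).im) y = (DD k f y).im := by
    filter_upwards [hf.eventually (by simp)] with y hy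
    exact dd_im (hy.differentiableAt (by norm_num)) k
  have h2 : dd k (dd k (fun x => (f x).im)) z = dd k (fun y => (DD k f y).im) z :=
    congrArg (fun L : ℂ →L[ℝ] ℝ => L k) (Filter.EventuallyEq.fderiv_eq h1)
  rw [h2, dd_im (DD_diff hf k)]

/-- the Laplacian of a composition with a holomorphic function, complex valued -/
theorem lap_comp {A : ℂ → ℂ} {F : ℂ → ℂ} {ζ : ℂ} (hA : ContDiffAt ℝ 2 A (F ζ))
    (hF : AnalyticAt ℂ F ζ) :
    DD 1 (DD 1 (fun x => A (F x))) ζ + DD Complex.I (DD Complex.I (fun x => A (F x))) ζ =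
      ((‖deriv F ζ‖ ^ 2 : ℝ) : ℂ) *
        (DD 1 (DD 1 A) (F ζ) + DD Complex.I (DD Complex.I A) (F ζ)) := by
  have hF2 : ContDiffAt ℝ 2 F ζ := (hF.contDiffAt (n := 2)).restrict_scalars ℝ
  have hc : ContDiffAt ℝ 2 (fun x => A (F x)) ζ := hA.comp ζ hF2
  have hre : ContDiffAt ℝ 2 (fun x => (A x).re) (F ζ) := Complex.reCLM.contDiff.contDiffAt.comp _ hA
  have him : ContDiffAt ℝ 2 (fun x => (A x).im) (F ζ) := Complex.imCLM.contDiff.contDiffAt.comp _ hA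
  have h1 := t_LAP (fun x => (A x).re) F ζ hre hF
  have h2 := t_LAP (fun x => (A x).im) F ζ him hF
  unfold la at h1 h2
  rw [dd2_re hc, dd2_re hc, dd2_re hA, dd2_re hA] at h1
  rw [dd2_im hc, dd2_im hc, dd2_im hA, dd2_im hA] at h2
  apply Complex.ext
  · rw [Complex.re_ofReal_mul, Complex.add_re, Complex.add_re]
    exact h1
  · rw [Complex.im_ofReal_mul, Complex.add_im, Complex.add_im]
    exact h2

/-- the function in the logarithmic coordinate -/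
noncomputable def lc (φ : ℂ → ℂ) (A : ℂ → ℂ) (ζ : ℂ) : ℂ := A (φ (Complex.exp ζ))

theorem lc_smooth (h : Dom φ r) {A : ℂ → ℂ} (hA : ContDiffOn ℝ ∞ A (φ '' ball 0 1)) {ζ : ℂ}
    (hζ : ζ.re < 0) : ContDiffAt ℝ 2 (lc φ A) ζ := by
  have h0 : ContDiffAt ℝ ∞ A (φ (Complex.exp ζ)) :=
    hA.contDiffAt ((isOpen_dom h).mem_nhds (mem_dom hζ))
  have h1 : ContDiffAt ℝ ∞ (fun z => φ (Complex.exp z)) ζ :=
    ((F_an h hζ).contDiffAt (n := ∞)).restrict_scalars ℝ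
  have h2 : ContDiffAt ℝ ∞ (lc φ A) ζ := h0.comp ζ h1
  exact h2.of_le (by norm_cast)

theorem lc_eq (h : Dom φ r) {A : ℂ → ℂ} (hA : ContDiffOn ℝ ∞ A (φ '' ball 0 1))
    (hAe : ∀ z ∈ φ '' ball 0 1, Dx (Dx A) z + Dy (Dy A) z = -lam * A z) {ζ : ℂ} (hζ : ζ.re < 0) :
    DD 1 (DD 1 (lc φ A)) ζ + DD Complex.I (DD Complex.I (lc φ A)) ζ =
      -lam * ((‖dF φ ζ‖ ^ 2 : ℝ) : ℂ) * lc φ A ζ := by
  have h0 : ContDiffAt ℝ ∞ A (φ (Complex.exp ζ)) :=
    hA.contDiffAt ((isOpen_dom h).mem_nhds (mem_dom hζ))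
  have h1 := lap_comp (A := A) (F := fun z => φ (Complex.exp z)) (ζ := ζ)
    (h0.of_le (by norm_cast)) (F_an h hζ)
  have h2 := hAe _ (mem_dom hζ)
  rw [Dx_eq, Dx_eq, Dy_eq, Dy_eq] at h2
  rw [F_deriv h hζ, h2] at h1
  change DD 1 (DD 1 (fun x => A (φ (Complex.exp x)))) ζ + DD Complex.I (DD Complex.I
    (fun x => A (φ (Complex.exp x)))) ζ = _
  rw [h1]
  unfold lc
  ring

/-- the flux and its companion -/
noncomputable def fl (k : ℂ) (a b : ℂ → ℂ) (ζ : ℂ) : ℂ := a ζ * DD k b ζ - b ζ * DD k a ζ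

theorem fl_hd (h : Dom φ r) {A B : ℂ → ℂ} (hA : ContDiffOn ℝ ∞ A (φ '' ball 0 1))
    (hB : ContDiffOn ℝ ∞ B (φ '' ball 0 1))
    (hAe : ∀ z ∈ φ '' ball 0 1, Dx (Dx A) z + Dy (Dy A) z = -lam * A z)
    (hBe : ∀ z ∈ φ '' ball 0 1, Dx (Dx B) z + Dy (Dy B) z = -lam * B z) {ζ : ℂ} (hζ : ζ.re < 0) :
    ∃ A' B' : ℂ →L[ℝ] ℂ, HasFDerivAt (fl 1 (lc φ A) (lc φ B)) A' ζ ∧
      HasFDerivAt (fl Complex.I (lc φ A) (lc φ B)) B' ζ ∧ A' 1 + B' Complex.I = 0 := by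
  have ha := lc_smooth h hA hζ
  have hb := lc_smooth h hB hζ
  have ha1 := (ha.differentiableAt (by norm_num)).hasFDerivAt
  have hb1 := (hb.differentiableAt (by norm_num)).hasFDerivAt
  have hk : ∀ k : ℂ, HasFDerivAt (fl k (lc φ A) (lc φ B))
      ((lc φ A ζ • fderiv ℝ (DD k (lc φ B)) ζ + DD k (lc φ B) ζ • fderiv ℝ (lc φ A) ζ) -
        (lc φ B ζ • fderiv ℝ (DD k (lc φ A)) ζ + DD k (lc φ A) ζ • fderiv ℝ (lc φ B) ζ)) ζ :=
    fun k => (ha1.mul (DD_diff hb k).hasFDerivAt).sub (hb1.mul (DD_diff ha k).hasFDerivAt)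
  refine ⟨_, _, hk 1, hk Complex.I, ?_⟩
  have e1 := lc_eq h hA hAe hζ
  have e2 := lc_eq h hB hBe hζ
  have e3 : ∀ k : ℂ, ((lc φ A ζ • fderiv ℝ (DD k (lc φ B)) ζ + DD k (lc φ B) ζ • fderiv ℝ (lc φ A) ζ) -
        (lc φ B ζ • fderiv ℝ (DD k (lc φ A)) ζ + DD k (lc φ A) ζ • fderiv ℝ (lc φ B) ζ)) k =
      lc φ A ζ * DD k (DD k (lc φ B)) ζ - lc φ B ζ * DD k (DD k (lc φ A)) ζ := by
    intro k
    simp only [sub_apply, add_apply, smul_apply, smul_eq_mul]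
    change (lc φ A ζ * DD k (DD k (lc φ B)) ζ + DD k (lc φ B) ζ * DD k (lc φ A) ζ) -
      (lc φ B ζ * DD k (DD k (lc φ A)) ζ + DD k (lc φ A) ζ * DD k (lc φ B) ζ) = _
    ring
  rw [e3, e3]
  linear_combination (lc φ A ζ) * e2 - (lc φ B ζ) * e1

theorem lc_per (A : ℂ → ℂ) (ζ : ℂ) : lc φ A (ζ + 2 * Real.pi * Complex.I) = lc φ A ζ := by
  unfold lc
  rw [exp_per]

theorem DD_lc_per (A : ℂ → ℂ) (k ζ : ℂ) :
    DD k (lc φ A) (ζ + 2 * Real.pi * Complex.I) = DD k (lc φ A) ζ := by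
  have h1 : lc φ A = fun z => lc φ A (z + 2 * Real.pi * Complex.I) :=
    funext fun z => (lc_per A z).symm
  unfold DD
  conv_rhs => rw [h1]
  rw [fderiv_comp_add_right]

theorem fl_per (A B : ℂ → ℂ) (k ζ : ℂ) :
    fl k (lc φ A) (lc φ B) (ζ + 2 * Real.pi * Complex.I) = fl k (lc φ A) (lc φ B) ζ := by
  unfold fl
  rw [lc_per, lc_per, DD_lc_per, DD_lc_per]

theorem fl_const (h : Dom φ r) {A B : ℂ → ℂ} (hA : ContDiffOn ℝ ∞ A (φ '' ball 0 1))
    (hB : ContDiffOn ℝ ∞ B (φ '' ball 0 1))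
    (hAe : ∀ z ∈ φ '' ball 0 1, Dx (Dx A) z + Dy (Dy A) z = -lam * A z)
    (hBe : ∀ z ∈ φ '' ball 0 1, Dx (Dx B) z + Dy (Dy B) z = -lam * B z) {x₁ x₂ : ℝ} (h1 : x₁ < 0)
    (h2 : x₂ < 0) :
    ∫ y in (0 : ℝ)..2 * Real.pi, fl 1 (lc φ A) (lc φ B) (x₂ + y * Complex.I) =
      ∫ y in (0 : ℝ)..2 * Real.pi, fl 1 (lc φ A) (lc φ B) (x₁ + y * Complex.I) := by
  have hpi := Real.pi_pos
  choose! A' B' hA' hB' hAB using fun (ζ : ℂ) (hz : ζ.re < 0) => fl_hd h hA hB hAe hBe hz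
  set L : ℝ × ℝ →L[ℝ] ℂ := (Complex.equivRealProdCLM.symm : ℝ × ℝ →L[ℝ] ℂ) with hL
  have hLe : ∀ p : ℝ × ℝ, L p = p.1 + p.2 * Complex.I := fun p => by
    rw [hL]
    change Complex.equivRealProdCLM.symm p = _
    rw [Complex.equivRealProdCLM_symm_apply]
  have hre : ∀ p : ℝ × ℝ, (L p).re = p.1 := fun p => by
    rw [hLe]
    simp
  have hx : ∀ p ∈ uIcc x₁ x₂ ×ˢ uIcc (0 : ℝ) (2 * Real.pi), (L p).re < 0 := by
    rintro p ⟨hp, -⟩
    rw [hre]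
    rcases le_total x₁ x₂ with h | h
    · rw [uIcc_of_le h] at hp
      exact lt_of_le_of_lt hp.2 h2
    · rw [uIcc_of_ge h] at hp
      exact lt_of_le_of_lt hp.2 h1
  have hx' : ∀ p ∈ Ioo (min x₁ x₂) (max x₁ x₂) ×ˢ Ioo (min 0 (2 * Real.pi)) (max 0 (2 * Real.pi)) \
      (∅ : Set (ℝ × ℝ)), (L p).re < 0 := by
    rintro p ⟨⟨hp, -⟩, -⟩
    rw [hre]
    exact lt_of_lt_of_le hp.2 (max_le h1.le h2.le)
  have hf : ∀ p : ℝ × ℝ, (L p).re < 0 →
      HasFDerivAt (fun p => fl 1 (lc φ A) (lc φ B) (L p)) ((A' (L p)).comp L) p := fun p hp =>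
    (hA' _ hp).comp p L.hasFDerivAt
  have hg : ∀ p : ℝ × ℝ, (L p).re < 0 →
      HasFDerivAt (fun p => fl Complex.I (lc φ A) (lc φ B) (L p)) ((B' (L p)).comp L) p :=
    fun p hp => (hB' _ hp).comp p L.hasFDerivAt
  have h10 : L (1, 0) = 1 := by rw [hLe]; simp
  have h01 : L (0, 1) = Complex.I := by rw [hLe]; simp
  have hz : ∀ p : ℝ × ℝ, (L p).re < 0 →
      ((A' (L p)).comp L) (1, 0) + ((B' (L p)).comp L) (0, 1) = 0 := by
    intro p hp
    rw [ContinuousLinearMap.comp_apply, ContinuousLinearMap.comp_apply, h10, h01]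
    exact hAB _ hp
  have key := integral2_divergence_prod_of_hasFDerivAt_off_countable
    (fun p => fl 1 (lc φ A) (lc φ B) (L p)) (fun p => fl Complex.I (lc φ A) (lc φ B) (L p))
    (fun p => (A' (L p)).comp L) (fun p => (B' (L p)).comp L) x₁ 0 x₂ (2 * Real.pi) ∅
    countable_empty
    (fun p hp => (hf p (hx p hp)).continuousAt.continuousWithinAt)
    (fun p hp => (hg p (hx p hp)).continuousAt.continuousWithinAt)
    (fun p hp => hf p (hx' p hp)) (fun p hp => hg p (hx' p hp))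
    ((integrableOn_zero (μ := volume)).congr_fun (fun p hp => (hz p (hx p hp)).symm)
      (measurableSet_uIcc.prod measurableSet_uIcc))
  have e0 : (∫ x in x₁..x₂, ∫ y in (0 : ℝ)..2 * Real.pi,
      ((A' (L (x, y))).comp L) (1, 0) + ((B' (L (x, y))).comp L) (0, 1)) = 0 := by
    have e2 : ∀ x ∈ uIcc x₁ x₂, (∫ y in (0 : ℝ)..2 * Real.pi,
        ((A' (L (x, y))).comp L) (1, 0) + ((B' (L (x, y))).comp L) (0, 1)) = 0 := by
      intro x hx1
      have e3 : (∫ y in (0 : ℝ)..2 * Real.pi,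
          ((A' (L (x, y))).comp L) (1, 0) + ((B' (L (x, y))).comp L) (0, 1)) =
          ∫ y in (0 : ℝ)..2 * Real.pi, (0 : ℂ) :=
        intervalIntegral.integral_congr fun y hy1 => hz (x, y) (hx (x, y) ⟨hx1, hy1⟩)
      rw [e3, intervalIntegral.integral_zero]
    rw [intervalIntegral.integral_congr e2, intervalIntegral.integral_zero]
  have e1 : (∫ x in x₁..x₂, fl Complex.I (lc φ A) (lc φ B) (L (x, 2 * Real.pi))) =
      ∫ x in x₁..x₂, fl Complex.I (lc φ A) (lc φ B) (L (x, 0)) := by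
    refine intervalIntegral.integral_congr fun x _ => ?_
    simp only [hLe]
    have := fl_per (φ := φ) A B Complex.I (x : ℂ)
    push_cast at this ⊢
    rw [this]
    simp
  rw [e0, e1] at key
  simp only [hLe] at key
  linear_combination -key

theorem lc_bd (h : Dom φ r) {A : ℂ → ℂ} (hA : ContDiffOn ℝ ∞ A (φ '' ball 0 1)) :
    ∃ C : ℝ, 0 ≤ C ∧ ∀ᶠ w in 𝓝 (0 : ℂ), ∀ ζ : ℂ, Complex.exp ζ = w →
      ‖lc φ A ζ‖ ≤ C ∧ ‖DD 1 (lc φ A) ζ‖ ≤ C * ‖w‖ := by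
  set g : ℂ → ℂ := fun w => A (φ w) with hg
  have hsm : ∀ w ∈ ball (0 : ℂ) 1, ContDiffAt ℝ 2 g w := by
    intro w hw
    have h1 : AnalyticAt ℂ φ w :=
      h.hol.analyticAt (isOpen_ball.mem_nhds (ball_subset_ball h.hr.le hw))
    have h2 : ContDiffAt ℝ ∞ φ w := (h1.contDiffAt (n := ∞)).restrict_scalars ℝ
    have h3 : ContDiffAt ℝ ∞ A (φ w) :=
      hA.contDiffAt ((isOpen_dom h).mem_nhds (mem_image_of_mem _ hw))
    exact (h3.comp w h2).of_le (by norm_cast)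
  have h0 : (0 : ℂ) ∈ ball (0 : ℂ) 1 := mem_ball_self one_pos
  have c1 : ContinuousAt (fun w => ‖g w‖) 0 := (hsm 0 h0).continuousAt.norm
  have c2 : ContinuousAt (fun w => ‖fderiv ℝ g w‖) 0 :=
    ((hsm 0 h0).fderiv_right (m := 1) (by norm_num)).continuousAt.norm
  refine ⟨‖g 0‖ + ‖fderiv ℝ g 0‖ + 1, by positivity, ?_⟩
  filter_upwards [c1.eventually_lt_const (lt_add_one _), c2.eventually_lt_const (lt_add_one _),
    ball_mem_nhds (0 : ℂ) one_pos] with w h1 h2 h3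
  intro ζ hζ
  have n1 := norm_nonneg (fderiv ℝ g 0)
  have n2 := norm_nonneg (g 0)
  constructor
  · change ‖g (Complex.exp ζ)‖ ≤ _
    rw [hζ]
    linarith
  · have e1 : DD 1 (lc φ A) ζ = fderiv ℝ g w w := by
      have hgd : HasFDerivAt g (fderiv ℝ g w) (Complex.exp ζ) := by
        rw [hζ]
        exact ((hsm w h3).differentiableAt (by norm_num)).hasFDerivAt
      have hed := hol_fderiv (f := Complex.exp) (w := ζ) Complex.differentiableAt_exp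
      rw [Complex.deriv_exp] at hed
      have := (hgd.comp ζ hed).fderiv
      change fderiv ℝ (g ∘ Complex.exp) ζ 1 = _
      rw [this]
      change fderiv ℝ g w (Complex.exp ζ * 1) = _
      rw [mul_one, hζ]
    rw [e1]
    refine ((fderiv ℝ g w).le_opNorm _).trans ?_
    refine mul_le_mul_of_nonneg_right ?_ (norm_nonneg _)
    linarith

theorem fl_decay (h : Dom φ r) {A B : ℂ → ℂ} (hA : ContDiffOn ℝ ∞ A (φ '' ball 0 1))
    (hB : ContDiffOn ℝ ∞ B (φ '' ball 0 1)) :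
    ∃ K ρ : ℝ, 0 ≤ K ∧ 0 < ρ ∧ ∀ ζ : ℂ, Real.exp ζ.re < ρ →
      ‖fl 1 (lc φ A) (lc φ B) ζ‖ ≤ K * Real.exp ζ.re := by
  obtain ⟨C0, h0, k0⟩ := lc_bd h hA
  obtain ⟨C1, h1, k1⟩ := lc_bd h hB
  obtain ⟨ρ, hρ, hb⟩ := Metric.eventually_nhds_iff_ball.1 (k0.and k1)
  refine ⟨2 * C0 * C1, ρ, by positivity, hρ, fun ζ hζ => ?_⟩
  have hn : ‖Complex.exp ζ‖ = Real.exp ζ.re := Complex.norm_exp ζ
  obtain ⟨p0, p1⟩ := hb (Complex.exp ζ) (by rwa [mem_ball_zero_iff, hn])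
  obtain ⟨a1, a2⟩ := p0 ζ rfl
  obtain ⟨b1, b2⟩ := p1 ζ rfl
  rw [hn] at a2 b2
  have he := Real.exp_pos ζ.re
  unfold fl
  refine (norm_sub_le _ _).trans ?_
  rw [norm_mul, norm_mul]
  have m1 : ‖lc φ A ζ‖ * ‖DD 1 (lc φ B) ζ‖ ≤ C0 * (C1 * Real.exp ζ.re) :=
    mul_le_mul a1 b2 (norm_nonneg _) h0
  have m2 : ‖lc φ B ζ‖ * ‖DD 1 (lc φ A) ζ‖ ≤ C1 * (C0 * Real.exp ζ.re) :=
    mul_le_mul b1 a2 (norm_nonneg _) h1
  linarith

/-- **Package GREEN.** -/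
theorem t_GREEN : S_GREEN := by
  intro φ r lam A B h hA hB hAe hBe x hx
  obtain ⟨K, ρ, hK, hρ, hb⟩ := fl_decay h hA hB
  have hpi := Real.pi_pos
  have h1 : ∀ᶠ t : ℝ in atBot,
      ‖∫ y in (0 : ℝ)..2 * Real.pi, fl 1 (lc φ A) (lc φ B) (x + y * Complex.I)‖ ≤
      K * Real.exp t * (2 * Real.pi) := by
    filter_upwards [eventually_lt_atBot (0 : ℝ),
      Real.tendsto_exp_atBot.eventually_lt_const hρ] with t ht ht'
    rw [fl_const h hA hB hAe hBe ht hx]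
    have := intervalIntegral.norm_integral_le_of_norm_le_const (a := (0 : ℝ)) (b := 2 * Real.pi)
      (f := fun y : ℝ => fl 1 (lc φ A) (lc φ B) (t + y * Complex.I)) (C := K * Real.exp t) (by
        intro y _
        have h2 : ((t : ℂ) + y * Complex.I).re = t := by simp
        have := hb (t + y * Complex.I) (by rw [h2]; exact ht')
        rw [h2] at this
        exact this)
    refine this.trans ?_
    rw [sub_zero, abs_of_pos (by positivity)]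
  have h2 : Tendsto (fun t : ℝ => K * Real.exp t * (2 * Real.pi)) atBot (𝓝 0) := by
    have := (Real.tendsto_exp_atBot.const_mul K).mul_const (2 * Real.pi)
    simpa using this
  have h3 := ge_of_tendsto h2 h1
  exact norm_le_zero_iff.1 h3

end Pool.Agent.P8H4.EV


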