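import Pool.Agent.P8H8.EV.Stm

/-! Package HARM of project EV: harmonics of the squared distance and of the length element. -/

set_option autoImplicit false

open MeasureTheory Set Filter Metric
open scoped Topology ContDiff ComplexConjugate

namespace Pool.Agent.P8H4.EV

open Pool.Agent.P8H8.SV Pool.Agent.P8H8.EV

variable {φ : ℂ → ℂ} {r : ℝ} {Θ : ℝ → ℝ}

theorem re_int {f : ℝ → ℂ} (hf : Continuous f)
    (h : ∫ t in (0 : ℝ)..2 * Real.pi, f t = 0) :
    (∫ t in (0 : ℝ)..2 * Real.pi, (f t).re = 0) ∧ ∫ t in (0 : ℝ)..2 * Real.pi, (f t).im = 0 := by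
  constructor
  · have := Complex.reCLM.intervalIntegral_comp_comm (hf.intervalIntegrable (μ := volume) 0 (2 * Real.pi))
    rw [h, map_zero] at this
    exact this
  · have := Complex.imCLM.intervalIntegral_comp_comm (hf.intervalIntegrable (μ := volume) 0 (2 * Real.pi))
    rw [h, map_zero] at this
    exact this

/-- the harmonic -/
noncomputable def hE (Θ : ℝ → ℝ) (k : ℕ) (t : ℝ) : ℂ := Complex.exp (((-(k * Θ t) : ℝ) : ℂ) * Complex.I)

theorem hE_re (k : ℕ) (t : ℝ) : (hE Θ k t).re = Real.cos (k * Θ t) := by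
  rw [hE, Complex.exp_ofReal_mul_I_re, Real.cos_neg]

theorem hE_im (k : ℕ) (t : ℝ) : (hE Θ k t).im = -Real.sin (k * Θ t) := by
  rw [hE, Complex.exp_ofReal_mul_I_im, Real.sin_neg]

theorem hE_cont (hA : Ang φ Θ) (k : ℕ) : Continuous (hE Θ k) := by
  have := hA.sm.continuous
  unfold hE
  fun_prop

theorem hE_pow (hD : Dom φ r) (hA : Ang φ Θ) (j : ℕ) (t : ℝ) :
    (conj (N φ t) / N φ t) ^ j = hE Θ (2 * j) t := by
  have h1 := hA.eq t
  have hpos := hD.N_pos t
  have hne : ((‖N φ t‖ : ℝ) : ℂ) ≠ 0 := by exact_mod_cast hpos.ne'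
  have h2 : conj (N φ t) / N φ t = hE Θ 2 t := by
    have h3 : conj (N φ t) = ‖N φ t‖ * Complex.exp (-(Θ t * Complex.I)) := by
      conv_lhs => rw [h1]
      rw [map_mul, Complex.conj_ofReal, ← Complex.exp_conj]
      congr 2
      rw [map_mul, Complex.conj_ofReal, Complex.conj_I]
      ring
    rw [h3]
    conv_lhs => rw [h1]
    rw [norm_mul, Complex.norm_exp_ofReal_mul_I, mul_one, Complex.norm_real, norm_norm,
      mul_div_mul_left _ _ hne, ← Complex.exp_sub, hE]
    congr 1
    push_cast
    ring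
  rw [h2, hE, hE, ← Complex.exp_nat_mul]
  congr 1
  push_cast
  ring

theorem ip_rot (a z w : ℂ) : ip (kf (-(Complex.I * a)) 1 z) w = (Complex.I * (z - a) * conj w).re := by
  unfold ip kf
  congr 1
  push_cast
  ring

theorem hasDerivAt_q (hD : Dom φ r) (a : ℂ) (t : ℝ) :
    HasDerivAt (fun s => ‖γ φ s - a‖ ^ 2) (-2 * ip (kf (-(Complex.I * a)) 1 (γ φ t)) (N φ t)) t := by
  have h1 := (hD.hasDerivAt_γ t).sub_const a
  have h2 := h1.norm_sq
  convert h2 using 1
  rw [ip_rot, Complex.inner]
  simp only [Complex.mul_re, Complex.mul_im, Complex.conj_re, Complex.conj_im, Complex.I_re,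
    Complex.I_im]
  ring

theorem t_HARM : S_HARM := by
  intro φ r Θ m hD hA hyp
  have hcN : Continuous (N φ) := hD.contDiff_N.continuous
  have hcγ : Continuous (γ φ) := hD.contDiff_γ.continuous
  have hcΘ : Continuous Θ := hA.sm.continuous
  have hcΘ' : Continuous (deriv Θ) := hA.sm.continuous_deriv (by norm_num)
  constructor
  · intro a j hj1 hjm
    have h0 := hyp j (-(Complex.I * a)) 1 hjm
    simp_rw [hE_pow hD hA] at h0
    -- integration by parts
    set q : ℝ → ℝ := fun s => ‖γ φ s - a‖ ^ 2 with hq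
    set q' : ℝ → ℝ := fun t => -2 * ip (kf (-(Complex.I * a)) 1 (γ φ t)) (N φ t) with hq'
    have hqd : ∀ t, HasDerivAt q (q' t) t := fun t => hasDerivAt_q hD a t
    have hq'c : Continuous q' := by
      rw [hq']
      unfold ip kf
      exact continuous_const.mul (Complex.continuous_re.comp
        ((continuous_const.add (continuous_const.mul hcγ)).mul (Complex.continuous_conj.comp hcN)))
    have hEd : ∀ t, HasDerivAt (hE Θ (2 * j))
        (hE Θ (2 * j) t * (((-((2 * j : ℕ) * deriv Θ t) : ℝ) : ℂ) * Complex.I)) t := by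
      intro t
      have h1 : HasDerivAt Θ (deriv Θ t) t :=
        (hA.sm.differentiable (by norm_num)).differentiableAt.hasDerivAt
      have h2 : HasDerivAt (fun s => ((-(((2 * j : ℕ) : ℝ) * Θ s) : ℝ) : ℂ))
          ((-(((2 * j : ℕ) : ℝ) * deriv Θ t) : ℝ) : ℂ) t := (h1.const_mul _).neg.ofReal_comp
      exact (h2.mul_const Complex.I).cexp
    have hib := intervalIntegral.integral_mul_deriv_eq_deriv_mul
      (a := (0 : ℝ)) (b := 2 * Real.pi) (u := hE Θ (2 * j)) (v := fun t => ((q t : ℝ) : ℂ))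
      (u' := fun t => hE Θ (2 * j) t * (((-((2 * j : ℕ) * deriv Θ t) : ℝ) : ℂ) * Complex.I))
      (v' := fun t => ((q' t : ℝ) : ℂ))
      (fun t _ => hEd t) (fun t _ => (hqd t).ofReal_comp)
      (Continuous.intervalIntegrable (by
        have := hE_cont hA (2 * j)
        fun_prop) _ _)
      (Continuous.intervalIntegrable (by fun_prop) _ _)
    have hper1 : hE Θ (2 * j) (2 * Real.pi) = hE Θ (2 * j) 0 := by
      have h1 := hA.per 0
      rw [zero_add] at h1
      unfold hE
      rw [h1, Complex.exp_eq_exp_iff_exists_int]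
      refine ⟨-(2 * j : ℕ), ?_⟩
      push_cast
      ring
    have hper2 : q (2 * Real.pi) = q 0 := by
      have h1 := γ_per (φ := φ) 0
      rw [zero_add] at h1
      rw [hq]
      simp only
      rw [h1]
    rw [hper1, hper2, sub_self, zero_sub] at hib
    have hL : ∫ t in (0 : ℝ)..2 * Real.pi, hE Θ (2 * j) t * ((q' t : ℝ) : ℂ) = 0 := by
      have h1 : ∀ t, hE Θ (2 * j) t * ((q' t : ℝ) : ℂ) =
          (-2 : ℂ) * (hE Θ (2 * j) t * (ip (kf (-(Complex.I * a)) 1 (γ φ t)) (N φ t) : ℂ)) := by
        intro t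
        rw [hq']
        push_cast
        ring
      simp_rw [h1]
      rw [intervalIntegral.integral_const_mul, h0, mul_zero]
    rw [hL] at hib
    have hfin : ∫ t in (0 : ℝ)..2 * Real.pi, hE Θ (2 * j) t * ((q t * deriv Θ t : ℝ) : ℂ) = 0 := by
      have h1 : ∀ t, hE Θ (2 * j) t * (((-((2 * j : ℕ) * deriv Θ t) : ℝ) : ℂ) * Complex.I) *
          ((q t : ℝ) : ℂ) = (-((2 * j : ℕ) : ℂ) * Complex.I) *
            (hE Θ (2 * j) t * ((q t * deriv Θ t : ℝ) : ℂ)) := by
        intro t
        push_cast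
        ring
      simp_rw [h1] at hib
      rw [intervalIntegral.integral_const_mul] at hib
      have h2 : (-((2 * j : ℕ) : ℂ) * Complex.I) ≠ 0 := by
        refine mul_ne_zero (neg_ne_zero.mpr ?_) Complex.I_ne_zero
        exact_mod_cast (by omega : (2 * j : ℕ) ≠ 0)
      have h3 := neg_eq_zero.mp hib.symm
      exact (mul_eq_zero.mp h3).resolve_left h2
    have hqc : Continuous q := by
      rw [hq]
      fun_prop
    obtain ⟨h1, h2⟩ := re_int (by
      have := hE_cont hA (2 * j)
      fun_prop) hfin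
    constructor
    · refine Eq.trans ?_ h1
      refine intervalIntegral.integral_congr fun t _ => ?_
      simp only [Complex.mul_re, Complex.ofReal_re, Complex.ofReal_im, mul_zero, sub_zero]
      rw [hE_re]
      ring
    · have h3 : (∫ t in (0 : ℝ)..2 * Real.pi, q t * Real.sin ((2 * j : ℕ) * Θ t) * deriv Θ t) =
          -∫ t in (0 : ℝ)..2 * Real.pi, (hE Θ (2 * j) t * ((q t * deriv Θ t : ℝ) : ℂ)).im := by
        rw [← intervalIntegral.integral_neg]
        refine intervalIntegral.integral_congr fun t _ => ?_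
        simp only [Complex.mul_im, Complex.ofReal_re, Complex.ofReal_im, mul_zero, zero_add]
        rw [hE_im]
        ring
      rw [h3, h2, neg_zero]
  · intro j hjm
    have h1 := hyp j 1 0 hjm
    have h2 := hyp j Complex.I 0 hjm
    simp_rw [hE_pow hD hA] at h1 h2
    have hip1 : ∀ t, ip (kf 1 0 (γ φ t)) (N φ t) = ‖N φ t‖ * Real.cos (Θ t) := by
      intro t
      unfold ip kf
      conv_lhs => rw [hA.eq t]
      simp [Complex.exp_ofReal_mul_I_re]
    have hip2 : ∀ t, ip (kf Complex.I 0 (γ φ t)) (N φ t) = ‖N φ t‖ * Real.sin (Θ t) := by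
      intro t
      unfold ip kf
      conv_lhs => rw [hA.eq t]
      simp [Complex.exp_ofReal_mul_I_im]
    simp_rw [hip1] at h1
    simp_rw [hip2] at h2
    have hc := hE_cont hA (2 * j)
    have hfin : ∫ t in (0 : ℝ)..2 * Real.pi, hE Θ (2 * j + 1) t * ((‖N φ t‖ : ℝ) : ℂ) = 0 := by
      have h3 : ∀ t, hE Θ (2 * j + 1) t * ((‖N φ t‖ : ℝ) : ℂ) =
          hE Θ (2 * j) t * ((‖N φ t‖ * Real.cos (Θ t) : ℝ) : ℂ) -
            Complex.I * (hE Θ (2 * j) t * ((‖N φ t‖ * Real.sin (Θ t) : ℝ) : ℂ)) := by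
        intro t
        have h4 : hE Θ (2 * j + 1) t = hE Θ (2 * j) t * Complex.exp (((-Θ t : ℝ) : ℂ) * Complex.I) := by
          unfold hE
          rw [← Complex.exp_add]
          congr 1
          push_cast
          ring
        have h5 : Complex.exp (((-Θ t : ℝ) : ℂ) * Complex.I) =
            (Real.cos (Θ t) : ℂ) - Complex.I * (Real.sin (Θ t) : ℂ) := by
          rw [Complex.exp_mul_I]
          push_cast
          rw [Complex.cos_neg, Complex.sin_neg]
          ring
        rw [h4, h5]
        push_cast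
        ring
      simp_rw [h3]
      rw [intervalIntegral.integral_sub, intervalIntegral.integral_const_mul, h1, h2]
      · ring
      · exact Continuous.intervalIntegrable (by fun_prop) _ _
      · exact Continuous.intervalIntegrable (by fun_prop) _ _
    obtain ⟨h3, h4⟩ := re_int (by
      have := hE_cont hA (2 * j + 1)
      fun_prop) hfin
    constructor
    · refine Eq.trans ?_ h3
      refine intervalIntegral.integral_congr fun t _ => ?_
      simp only [Complex.mul_re, Complex.ofReal_re, Complex.ofReal_im, mul_zero, sub_zero]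
      rw [hE_re]
      ring
    · have h5 : (∫ t in (0 : ℝ)..2 * Real.pi, ‖N φ t‖ * Real.sin ((2 * j + 1 : ℕ) * Θ t)) =
          -∫ t in (0 : ℝ)..2 * Real.pi, (hE Θ (2 * j + 1) t * ((‖N φ t‖ : ℝ) : ℂ)).im := by
        rw [← intervalIntegral.integral_neg]
        refine intervalIntegral.integral_congr fun t _ => ?_
        simp only [Complex.mul_im, Complex.ofReal_re, Complex.ofReal_im, mul_zero, zero_add]
        rw [hE_im]
        ring
      rw [h5, h4, neg_zero]

end Pool.Agent.P8H4.EV


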