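import Pool.Agent.P8H8.EV.Stm
import Pool.Agent.P8H8.SV.Reg
import Pool.Agent.P8H8.SV.Pull
import Pool.Agent.P8H42.SV.Weak
import Pool.Agent.P8H42.SV.Rot
import Pool.Agent.P8H42.SV.Rep
import Pool.Agent.P8H94.SV.Lap

/-! Package HREG of project EV: all angular derivatives of the solution are `C¹` in the plane. -/

set_option autoImplicit false

open MeasureTheory Set Filter Metric
open scoped Topology ContDiff ComplexConjugate

namespace Pool.Agent.P8H4.EV

open Pool.Agent.TH298.Sch (SC dd Lr)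
open Pool.Agent.R227.SA (la Dat)
open Pool.Agent.P8H8.SV Pool.Agent.P8H8.EV Pool.Agent.P8H8.SV.REG

/-- all angular derivatives up to order `k` are `C¹` -/
def AK : ℕ → (ℂ → ℝ) → Prop
  | 0, g => ContDiff ℝ 1 g
  | k + 1, g => ContDiff ℝ 1 g ∧ AK k (Lr g)

theorem AK.c1 {k : ℕ} {g : ℂ → ℝ} (h : AK k g) : ContDiff ℝ 1 g := by
  cases k with
  | zero => exact h
  | succ k => exact h.1

theorem AK.down {k : ℕ} {g : ℂ → ℝ} (h : AK (k + 1) g) : AK k g := by
  induction k generalizing g with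
  | zero => exact h.1
  | succ k ih => exact ⟨h.1, ih h.2⟩

theorem AK.iter {k : ℕ} {g : ℂ → ℝ} (h : AK k g) : ContDiff ℝ 1 (Lr^[k] g) := by
  induction k generalizing g with
  | zero => exact h
  | succ k ih => exact ih h.2

theorem AK_succ_of {k : ℕ} {g : ℂ → ℝ} (h : AK k g) (h2 : ContDiff ℝ 1 (Lr^[k + 1] g)) :
    AK (k + 1) g := by
  induction k generalizing g with
  | zero => exact ⟨h, h2⟩
  | succ k ih => exact ⟨h.1, ih h.2 h2⟩

theorem Lr_add {g h : ℂ → ℝ} (hg : ContDiff ℝ 1 g) (hh : ContDiff ℝ 1 h) :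
    Lr (fun w => g w + h w) = fun w => Lr g w + Lr h w := by
  ext w
  have h1 := ((hg.differentiable (by norm_num)) w).hasFDerivAt.add
    ((hh.differentiable (by norm_num)) w).hasFDerivAt
  have h2 : fderiv ℝ (fun w => g w + h w) w = _ := h1.fderiv
  unfold Lr
  rw [h2]
  rfl

theorem Lr_mul {g h : ℂ → ℝ} (hg : ContDiff ℝ 1 g) (hh : ContDiff ℝ 1 h) :
    Lr (fun w => g w * h w) = fun w => g w * Lr h w + Lr g w * h w := by
  ext w
  have h1 := ((hg.differentiable (by norm_num)) w).hasFDerivAt.mul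
    ((hh.differentiable (by norm_num)) w).hasFDerivAt
  have h2 : fderiv ℝ (fun w => g w * h w) w = _ := h1.fderiv
  unfold Lr
  rw [h2]
  simp only [add_apply, smul_apply, smul_eq_mul]
  ring

theorem AK.add {k : ℕ} {g h : ℂ → ℝ} (hg : AK k g) (hh : AK k h) : AK k (fun w => g w + h w) := by
  induction k generalizing g h with
  | zero => exact ContDiff.add hg hh
  | succ k ih =>
    refine ⟨hg.1.add hh.1, ?_⟩
    rw [Lr_add hg.1 hh.1]
    exact ih hg.2 hh.2

theorem AK.mul {k : ℕ} {g h : ℂ → ℝ} (hg : AK k g) (hh : AK k h) : AK k (fun w => g w * h w) := by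
  induction k generalizing g h with
  | zero => exact ContDiff.mul hg hh
  | succ k ih =>
    refine ⟨hg.1.mul hh.1, ?_⟩
    rw [Lr_mul hg.1 hh.1]
    exact (ih hg.down hh.2).add (ih hg.2 hh.down)

theorem AK_smooth {g : ℂ → ℝ} (hg : ContDiff ℝ ∞ g) (k : ℕ) : AK k g := by
  induction k generalizing g with
  | zero => exact hg.of_le (by norm_cast)
  | succ k ih =>
    refine ⟨hg.of_le (by norm_cast), ih ?_⟩
    have h1 : ContDiff ℝ ∞ (fderiv ℝ g) := hg.fderiv_right (by norm_cast)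
    unfold Lr
    exact h1.clm_apply (contDiff_const.mul contDiff_id)

/-- the smooth cut off Jacobian -/
theorem ext_J {φ : ℂ → ℂ} {r : ℝ} (h : Dom φ r) (lam : ℝ) :
    ∃ J : ℂ → ℝ, ContDiff ℝ ∞ J ∧ ∀ w ∈ ball (0 : ℂ) 1, J w = -lam * ‖deriv φ w‖ ^ 2 := by
  have hr := h.hr
  let χ : ContDiffBump (0 : ℂ) := ⟨1, (1 + r) / 2, one_pos, by linarith⟩
  refine ⟨fun w => χ w * (-lam * ‖deriv φ w‖ ^ 2), ?_, ?_⟩
  · rw [contDiff_iff_contDiffAt]
    intro w
    by_cases hw : w ∈ ball (0 : ℂ) r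
    · have h1 : ContDiffAt ℂ ∞ (deriv φ) w :=
        ((h.hol.deriv isOpen_ball).contDiffOn isOpen_ball).contDiffAt (isOpen_ball.mem_nhds hw)
      have h2 : ContDiffAt ℝ ∞ (deriv φ) w := h1.restrict_scalars ℝ
      have h3 : ContDiffAt ℝ ∞ (fun w => ‖deriv φ w‖ ^ 2) w := h2.norm_sq ℝ
      exact (χ.contDiff.contDiffAt).mul (contDiffAt_const.mul h3)
    · have hne : ∀ᶠ x in 𝓝 w, χ x = 0 := by
        have h1 : (1 + r) / 2 < ‖w‖ := by
          rw [mem_ball_zero_iff] at hw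
          push Not at hw
          linarith
        have h2 : ∀ᶠ x in 𝓝 w, (1 + r) / 2 < ‖x‖ :=
          continuous_norm.continuousAt.eventually (lt_mem_nhds h1)
        filter_upwards [h2] with x hx
        apply χ.zero_of_le_dist
        rw [dist_zero_right]
        exact hx.le
      have : (fun w => χ w * (-lam * ‖deriv φ w‖ ^ 2)) =ᶠ[𝓝 w] fun _ => 0 := by
        filter_upwards [hne] with x hx
        rw [hx, zero_mul]
      exact contDiffAt_const.congr_of_eventuallyEq this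
  · intro w hw
    have : χ w = 1 := χ.one_of_mem_closedBall (ball_subset_closedBall hw)
    simp only [this, one_mul]

/-- the step of the bootstrap -/
theorem boot {V f : ℂ → ℝ} (hV : ContDiff ℝ 1 V)
    (hout : ∀ w, 1 ≤ ‖w‖ → V w = 0 ∧ fderiv ℝ V w = 0) (hf : ContDiff ℝ 1 f)
    (w1 : ∀ ψ, SC ψ → ∫ w, V w * la ψ w = ∫ w in ball 0 1, f w * ψ w) :
    ContDiff ℝ 1 (Lr V) ∧ (∀ w, 1 ≤ ‖w‖ → Lr V w = 0 ∧ fderiv ℝ (Lr V) w = 0) ∧
      ∀ ψ, SC ψ → ∫ w, Lr V w * la ψ w = ∫ w in ball 0 1, Lr f w * ψ w := by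
  have hVc : HasCompactSupport V := cs_of fun w hw => (hout w hw).1
  have w2 := Pool.Agent.P8H42.SV.t_ROT V f hV hVc hf w1
  have hLr0 : ∀ w, 1 ≤ ‖w‖ → Lr V w = 0 := by
    intro w hw
    unfold Lr
    rw [(hout w hw).2]
    simp
  have hLc : Continuous (Lr f) := Lr_cont hf
  obtain ⟨M, hM⟩ := (isCompact_closedBall (0 : ℂ) 1).exists_bound_of_continuousOn
    hLc.continuousOn
  have hM0 : 0 ≤ M := (norm_nonneg _).trans (hM 0 (mem_closedBall_self zero_le_one))
  have hW : ContDiff ℝ 1 (Lr V) := by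
    refine Pool.Agent.P8H42.SV.t_REP (Lr V) ((ball (0 : ℂ) 1).indicator (Lr f)) M (Lr_cont hV)
      (cs_of hLr0) (hLc.measurable.indicator measurableSet_ball) ?_ ?_ ?_
    · intro x
      by_cases hx : x ∈ ball (0 : ℂ) 1
      · rw [indicator_of_mem hx]
        exact hM x (ball_subset_closedBall hx)
      · rw [indicator_of_notMem hx, abs_zero]
        exact hM0
    · intro x hx
      rw [indicator_of_notMem]
      rw [mem_ball_zero_iff]
      linarith
    · intro ψ hψ
      rw [w2 ψ hψ, ← integral_indicator measurableSet_ball]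
      refine integral_congr_ae (Eventually.of_forall fun w => ?_)
      simp only
      by_cases hx : w ∈ ball (0 : ℂ) 1
      · rw [indicator_of_mem hx, indicator_of_mem hx]
      · rw [indicator_of_notMem hx, indicator_of_notMem hx, zero_mul]
  exact ⟨hW, fun w hw => ⟨hLr0 w hw, fderiv_zero hW hLr0 w hw⟩, w2⟩

/-- **Package HREG.** -/
theorem t_HREG : S_HREG := by
  intro φ r lam c v h hD
  obtain ⟨hV, hout, hsm, heq⟩ := PULL.t_PULL Pool.Agent.P8H94.SV.t_LAP φ r lam c v h hD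
  obtain ⟨J, hJ, hJe⟩ := ext_J h lam
  set V := Vd φ v with hVdef
  set f : ℂ → ℝ := fun w => J w * (V w + c) with hf
  have hfA : ∀ k, AK k V → AK k f := fun k hk =>
    (AK_smooth hJ k).mul (hk.add (AK_smooth contDiff_const k))
  have w0 := Pool.Agent.P8H42.SV.t_WEAK V f hV hout hsm (hfA 0 hV).c1.continuous (fun w hw => by
    rw [heq w hw, hf]
    simp only
    rw [hJe w hw])
  have key : ∀ k : ℕ, AK k V ∧
      (∀ w, 1 ≤ ‖w‖ → Lr^[k] V w = 0 ∧ fderiv ℝ (Lr^[k] V) w = 0) ∧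
      ∀ ψ, SC ψ → ∫ w, Lr^[k] V w * la ψ w = ∫ w in ball 0 1, Lr^[k] f w * ψ w := by
    intro k
    induction k with
    | zero => exact ⟨hV, hout, w0⟩
    | succ k ih =>
      obtain ⟨i1, i2, i3⟩ := ih
      obtain ⟨j1, j2, j3⟩ := boot i1.iter i2 (hfA k i1).iter i3
      simp only [Function.iterate_succ_apply']
      refine ⟨AK_succ_of i1 ?_, j2, j3⟩
      rw [Function.iterate_succ_apply']
      exact j1
  exact fun k => ⟨(key k).1.iter, (key k).2.1⟩

end Pool.Agent.P8H4.EV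


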